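import Pool.Agent.H751.AB.Stm3

/-! Chevalley's theorem for groups of units (task of helper751). -/

set_option autoImplicit false

namespace Pool.Agent.H370.AB

open Pool.Agent.H751.AB NumberField

section

variable {K : Type} [Field K] [NumberField K]

theorem fgE (E : Subgroup (𝓞 K)ˣ) : Group.FG E := by
  rw [GroupFG.iff_add_fg, ← Module.Finite.iff_addGroup_fg]
  let f : Additive E →ₗ[ℤ] Additive (𝓞 K)ˣ := (MonoidHom.toAdditive E.subtype).toIntLinearMap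
  have hf : Function.Injective f := by
    intro a b h
    exact Subtype.ext h
  exact Module.Finite.of_injective f hf

theorem finQ (G : Type) [CommGroup G] [Group.FG G] (m : ℕ) (hm : m ≠ 0) :
    Finite (G ⧸ (powMonoidHom m : G →* G).range) := by
  apply CommGroup.finite_of_fg_isMulTorsion
  intro g
  induction g using QuotientGroup.induction_on with
  | H x =>
    rw [isOfFinOrder_iff_pow_eq_one]
    refine ⟨m, Nat.pos_of_ne_zero hm, ?_⟩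
    rw [← QuotientGroup.mk_pow, QuotientGroup.eq_one_iff]
    exact ⟨x, rfl⟩

/-- `n ∣ m` in `𝓞 K` implies `n ∣ m` in `ℤ` for the prime `3` -/
theorem three_dvd {n : ℕ} (h : (3 : 𝓞 K) ∣ (n : 𝓞 K)) : 3 ∣ n := by
  obtain ⟨w, hw⟩ := h
  have h1 : Algebra.norm ℤ ((algebraMap ℤ (𝓞 K)) (n : ℤ)) =
      Algebra.norm ℤ ((algebraMap ℤ (𝓞 K)) (3 : ℤ)) * Algebra.norm ℤ w := by
    rw [← map_mul]
    congr 1
    simpa using hw
  rw [Algebra.norm_algebraMap, Algebra.norm_algebraMap] at h1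
  have hd : Module.finrank ℤ (𝓞 K) ≠ 0 := (Module.finrank_pos (R := ℤ) (M := 𝓞 K)).ne'
  have h2 : (3 : ℤ) ∣ (n : ℤ) ^ Module.finrank ℤ (𝓞 K) := by
    rw [h1]
    exact Dvd.dvd.mul_right (dvd_pow_self 3 hd) _
  have h3 : (3 : ℤ) ∣ (n : ℤ) := (Int.prime_three).dvd_of_dvd_pow h2
  exact_mod_cast h3

/-- the elements of `E` which are congruent to `1` modulo `3` -/
def E1 (E : Subgroup (𝓞 K)ˣ) : Subgroup (𝓞 K)ˣ where
  carrier := {h | h ∈ E ∧ (3 : 𝓞 K) ∣ (h : 𝓞 K) - 1}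
  mul_mem' := by
    rintro a b ⟨ha, ha'⟩ ⟨hb, hb'⟩
    refine ⟨E.mul_mem ha hb, ?_⟩
    have h1 : ((a * b : (𝓞 K)ˣ) : 𝓞 K) - 1 = (a : 𝓞 K) * ((b : 𝓞 K) - 1) + ((a : 𝓞 K) - 1) := by
      rw [Units.val_mul]
      ring
    rw [h1]
    exact dvd_add (Dvd.dvd.mul_left hb' _) ha'
  one_mem' := ⟨E.one_mem, by rw [Units.val_one, sub_self]; exact dvd_zero _⟩
  inv_mem' := by
    rintro a ⟨ha, ha'⟩
    refine ⟨E.inv_mem ha, ?_⟩
    have h1 : ((a⁻¹ : (𝓞 K)ˣ) : 𝓞 K) - 1 = -(((a⁻¹ : (𝓞 K)ˣ) : 𝓞 K)) * ((a : 𝓞 K) - 1) := by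
      have h2 : ((a⁻¹ : (𝓞 K)ˣ) : 𝓞 K) * (a : 𝓞 K) = 1 := by
        rw [← Units.val_mul, inv_mul_cancel, Units.val_one]
      linear_combination h2
    rw [h1]
    exact Dvd.dvd.mul_left ha' _

theorem E1_prime (E : Subgroup (𝓞 K)ˣ) (u : (𝓞 K)ˣ) (hu : u ∈ E1 E) (q : ℕ) (hq : q.Prime)
    (h : u ^ q = 1) : u = 1 := by
  by_contra hne
  have hne' : (u : 𝓞 K) - 1 ≠ 0 := by
    intro h1
    exact hne (Units.ext (sub_eq_zero.1 h1))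
  have hsum : ∑ i ∈ Finset.range q, (u : 𝓞 K) ^ i = 0 := by
    have h1 := geom_sum_mul (u : 𝓞 K) q
    have h2 : (u : 𝓞 K) ^ q = 1 := by rw [← Units.val_pow_eq_pow_val, h, Units.val_one]
    rw [h2, sub_self] at h1
    exact (mul_eq_zero.1 h1).resolve_right hne'
  have h3q : (3 : 𝓞 K) ∣ (q : 𝓞 K) := by
    have h1 : (q : 𝓞 K) = - ∑ i ∈ Finset.range q, ((u : 𝓞 K) ^ i - 1) := by
      rw [Finset.sum_sub_distrib, hsum, Finset.sum_const, Finset.card_range, nsmul_eq_mul]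
      ring
    rw [h1]
    refine (dvd_neg).2 (Finset.dvd_sum fun i _ => ?_)
    have h2 : u ^ i ∈ E1 E := Subgroup.pow_mem _ hu i
    have h3 := h2.2
    rw [Units.val_pow_eq_pow_val] at h3
    exact h3
  have hq3 : q = 3 := ((Nat.prime_dvd_prime_iff_eq Nat.prime_three hq).1 (three_dvd h3q)).symm
  subst hq3
  obtain ⟨w, hw⟩ := hu.2
  have hu' : (u : 𝓞 K) = 1 + 3 * w := by linear_combination hw
  have h4 : (3 : 𝓞 K) * (1 + 3 * w + 3 * w ^ 2) = 0 := by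
    have h5 : ∑ i ∈ Finset.range 3, (u : 𝓞 K) ^ i = 1 + (u : 𝓞 K) + (u : 𝓞 K) ^ 2 := by
      simp [Finset.sum_range_succ]
    rw [h5, hu'] at hsum
    linear_combination hsum
  have h6 : (1 : 𝓞 K) + 3 * w + 3 * w ^ 2 = 0 := by
    refine (mul_eq_zero.1 h4).resolve_left ?_
    exact_mod_cast (by norm_num : (3 : ℕ) ≠ 0)
  have h7 : (3 : 𝓞 K) ∣ ((1 : ℕ) : 𝓞 K) := ⟨- (w + w ^ 2), by
    rw [Nat.cast_one]
    linear_combination h6⟩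
  have h8 := three_dvd h7
  omega

theorem E1_free (E : Subgroup (𝓞 K)ˣ) (u : (𝓞 K)ˣ) (hu : u ∈ E1 E) (n : ℕ) (hn : n ≠ 0)
    (h : u ^ n = 1) : u = 1 := by
  by_contra hne
  have ho : orderOf u ≠ 1 := fun h1 => hne (orderOf_eq_one_iff.1 h1)
  have ho0 : 0 < orderOf u := orderOf_pos_iff.2 (isOfFinOrder_iff_pow_eq_one.2
    ⟨n, Nat.pos_of_ne_zero hn, h⟩)
  set q := (orderOf u).minFac with hq
  have hqp : q.Prime := Nat.minFac_prime ho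
  have hqd : q ∣ orderOf u := Nat.minFac_dvd _
  obtain ⟨r, hr⟩ := hqd
  have hr0 : 0 < r := by
    rcases Nat.eq_zero_or_pos r with h1 | h1
    · rw [h1, mul_zero] at hr
      omega
    · exact h1
  have h2 : (u ^ r) ^ q = 1 := by
    rw [← pow_mul, mul_comm r q, ← hr]
    exact pow_orderOf_eq_one u
  have h3 := E1_prime E (u ^ r) (Subgroup.pow_mem _ hu r) q hqp h2
  have h4 : orderOf u ∣ r := orderOf_dvd_of_pow_eq_one h3
  have h5 := Nat.le_of_dvd hr0 h4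
  have h6 := hqp.two_le
  nlinarith

/-- prime powers -/
theorem claim_pp (h1 : S_LOC) (h2 : S_POW) (E : Subgroup (𝓞 K)ˣ)
    (hE : ∀ u ∈ E, ∀ n : ℕ, n ≠ 0 → u ^ n = 1 → u = 1) (p k : ℕ) (hp : p.Prime) :
    ∃ N : ℕ, 0 < N ∧ ∀ h ∈ E, (N : 𝓞 K) ∣ ((h : (𝓞 K)ˣ) : 𝓞 K) - 1 → ∃ v ∈ E, h = v ^ (p ^ k) := by
  classical
  obtain ⟨J, hkJ, hJ⟩ := h2 K p k hp E hE
  haveI : Group.FG E := fgE E
  haveI : Finite (E ⧸ (powMonoidHom (p ^ J) : E →* E).range) :=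
    finQ E (p ^ J) (pow_ne_zero _ hp.ne_zero)
  haveI : Fintype (E ⧸ (powMonoidHom (p ^ J) : E →* E).range) := Fintype.ofFinite _
  have hN : ∀ x : E, ∃ N : ℕ, 0 < N ∧ ((¬ ∃ v ∈ E, (x : (𝓞 K)ˣ) = v ^ (p ^ k)) →
      ∀ v : (𝓞 K)ˣ, ¬ (N : 𝓞 K) ∣ (((x : (𝓞 K)ˣ) * v ^ (p ^ J) : (𝓞 K)ˣ) : 𝓞 K) - 1) := by
    intro x
    by_cases hx : ∃ v ∈ E, (x : (𝓞 K)ˣ) = v ^ (p ^ k)
    · exact ⟨1, one_pos, fun h => absurd hx h⟩
    · obtain ⟨N, hN0, hN⟩ := h1 K p J hp (x : (𝓞 K)ˣ) (fun hy => hx (hJ _ x.2 hy))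
      exact ⟨N, hN0, fun _ => hN⟩
  choose N hN0 hN using hN
  refine ⟨∏ c : E ⧸ (powMonoidHom (p ^ J) : E →* E).range, N (Quotient.out c),
    Finset.prod_pos fun c _ => hN0 _, ?_⟩
  intro h hh hdvd
  set c : E ⧸ (powMonoidHom (p ^ J) : E →* E).range := QuotientGroup.mk (⟨h, hh⟩ : E) with hc
  set x : E := Quotient.out c with hx
  have hxc : (QuotientGroup.mk x : E ⧸ (powMonoidHom (p ^ J) : E →* E).range) = c :=
    Quotient.out_eq' c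
  obtain ⟨v, hv⟩ : ∃ v : E, x * v ^ (p ^ J) = ⟨h, hh⟩ := by
    have h3 : x⁻¹ * (⟨h, hh⟩ : E) ∈ (powMonoidHom (p ^ J) : E →* E).range := by
      rw [← QuotientGroup.eq, hxc]
    obtain ⟨v, hv⟩ := h3
    have hv' : v ^ (p ^ J) = x⁻¹ * (⟨h, hh⟩ : E) := hv
    refine ⟨v, ?_⟩
    rw [hv']
    exact mul_inv_cancel_left _ _
  have hval : ((x : (𝓞 K)ˣ) * (v : (𝓞 K)ˣ) ^ (p ^ J) : (𝓞 K)ˣ) = h := congrArg Subtype.val hv
  have hxp : ∃ w ∈ E, (x : (𝓞 K)ˣ) = w ^ (p ^ k) := by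
    by_contra hcon
    apply hN x hcon (v : (𝓞 K)ˣ)
    rw [hval]
    refine dvd_trans ?_ hdvd
    have h5 : N x ∣ ∏ c : E ⧸ (powMonoidHom (p ^ J) : E →* E).range, N (Quotient.out c) :=
      Finset.dvd_prod_of_mem (fun c => N (Quotient.out c)) (Finset.mem_univ c)
    exact_mod_cast Nat.cast_dvd_cast h5
  obtain ⟨w, hw, hxw⟩ := hxp
  refine ⟨w * (v : (𝓞 K)ˣ) ^ (p ^ (J - k)), E.mul_mem hw (E.pow_mem v.2 _), ?_⟩
  rw [← hval, hxw, mul_pow, ← pow_mul, ← pow_add, Nat.sub_add_cancel hkJ]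

theorem claim (h1 : S_LOC) (h2 : S_POW) (E : Subgroup (𝓞 K)ˣ)
    (hE : ∀ u ∈ E, ∀ n : ℕ, n ≠ 0 → u ^ n = 1 → u = 1) (n : ℕ) : 0 < n →
    ∃ N : ℕ, 0 < N ∧ ∀ h ∈ E, (N : 𝓞 K) ∣ ((h : (𝓞 K)ˣ) : 𝓞 K) - 1 → ∃ v ∈ E, h = v ^ n := by
  induction n using Nat.recOnPosPrimePosCoprime with
  | prime_pow p k hp hk => exact fun _ => claim_pp h1 h2 E hE p k hp
  | zero => intro h; omega
  | one => exact fun _ => ⟨1, one_pos, fun h hh _ => ⟨h, hh, (pow_one h).symm⟩⟩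
  | coprime a b ha hb hab iha ihb =>
    intro _
    obtain ⟨N, hN0, hN⟩ := iha (by omega)
    obtain ⟨M, hM0, hM⟩ := ihb (by omega)
    refine ⟨N * M, Nat.mul_pos hN0 hM0, ?_⟩
    intro h hh hdvd
    rw [Nat.cast_mul] at hdvd
    obtain ⟨u, hu, hu'⟩ := hN h hh ((dvd_mul_right _ _).trans hdvd)
    obtain ⟨w, hw, hw'⟩ := hM h hh ((dvd_mul_left _ _).trans hdvd)
    have hbez : (a : ℤ) * Nat.gcdA a b + (b : ℤ) * Nat.gcdB a b = 1 := by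
      have := Nat.gcd_eq_gcd_ab a b
      rw [hab.gcd_eq_one] at this
      exact_mod_cast this.symm
    refine ⟨w ^ Nat.gcdA a b * u ^ Nat.gcdB a b,
      E.mul_mem (E.zpow_mem hw _) (E.zpow_mem hu _), ?_⟩
    have e1 : h ^ ((a : ℤ) * Nat.gcdA a b) = (w ^ Nat.gcdA a b) ^ (a * b) := by
      rw [hw', ← zpow_natCast, ← zpow_natCast, ← zpow_mul, ← zpow_mul]
      congr 1
      push_cast
      ring
    have e2 : h ^ ((b : ℤ) * Nat.gcdB a b) = (u ^ Nat.gcdB a b) ^ (a * b) := by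
      rw [hu', ← zpow_natCast, ← zpow_natCast, ← zpow_mul, ← zpow_mul]
      congr 1
      push_cast
      ring
    rw [mul_pow, ← e1, ← e2, ← zpow_add, hbez, zpow_one]

end

theorem T_UNIT (h1 : S_LOC) (h2 : S_POW) : S_UNIT := by
  intro K _ _ E D hD
  set e : ℕ := (D.relIndex E).factorial with he
  have he0 : 0 < e := Nat.factorial_pos _
  obtain ⟨N, hN0, hN⟩ := claim h1 h2 (E1 E) (fun u hu n hn h => E1_free E u hu n hn h) e he0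
  refine ⟨3 * N, by omega, ?_⟩
  intro h hh hdvd
  rw [Nat.cast_mul] at hdvd
  have h3 : (3 : 𝓞 K) ∣ ((h : (𝓞 K)ˣ) : 𝓞 K) - 1 := by
    refine dvd_trans ?_ hdvd
    exact_mod_cast dvd_mul_right (((3 : ℕ) : 𝓞 K)) (N : 𝓞 K)
  obtain ⟨v, hv, hv'⟩ := hN h ⟨hh, h3⟩ ((dvd_mul_left _ _).trans hdvd)
  rw [hv']
  exact (Subgroup.pow_mem_of_relIndex_ne_zero_of_dvd hD hv.1
    (fun m hm hm' => Nat.dvd_factorial hm hm')).1

end Pool.Agent.H370.AB
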